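import Pool.Agent.Helper12.SF.Defs

set_option autoImplicit false

open Filter

namespace Pool.Agent.Helper77.SF

open Pool.Agent.Helper12.SF

theorem main : S_PRIM := by
  intro δ hδ
  have hlog : ∀ᶠ k : ℕ in atTop, 8 * (1 + δ) * Real.log k ≤ (k : ℝ) ^ δ := by
    have h0 := (isLittleO_log_rpow_atTop hδ).bound
      (show (0 : ℝ) < 1 / (8 * (1 + δ)) by positivity)
    have h1 := tendsto_natCast_atTop_atTop (R := ℝ) |>.eventually h0
    filter_upwards [h1, eventually_ge_atTop 1] with k hk hk1
    have hk1' : (1 : ℝ) ≤ k := by exact_mod_cast hk1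
    rw [Real.norm_of_nonneg (Real.log_nonneg hk1'), Real.norm_of_nonneg (by positivity)] at hk
    rw [div_mul_eq_mul_div, le_div_iff₀ (by positivity)] at hk
    linarith
  have hsmall : ∀ᶠ n : ℕ in atTop, Real.log ((n : ℝ) + 1) ≤ (n : ℝ) / 10 := by
    have h0 := Real.isLittleO_log_id_atTop.bound (show (0 : ℝ) < 1 / 20 by norm_num)
    have ht : Tendsto (fun n : ℕ => (n : ℝ) + 1) atTop atTop :=
      tendsto_atTop_add_const_right _ _ tendsto_natCast_atTop_atTop
    filter_upwards [ht.eventually h0, eventually_ge_atTop 1] with n hn hn1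
    have hn1' : (1 : ℝ) ≤ n := by exact_mod_cast hn1
    rw [Real.norm_of_nonneg (Real.log_nonneg (by linarith)), id,
      Real.norm_of_nonneg (by positivity)] at hn
    linarith
  have hfl : Tendsto (fun k : ℕ => ⌊(k : ℝ) ^ (1 + δ)⌋₊) atTop atTop :=
    tendsto_nat_floor_atTop.comp ((tendsto_rpow_atTop (by linarith)).comp
      tendsto_natCast_atTop_atTop)
  filter_upwards [hlog, hfl.eventually hsmall, eventually_ge_atTop 2,
    hfl.eventually_ge_atTop 2] with k hk hn hk2 hn2
  set n : ℕ := ⌊(k : ℝ) ^ (1 + δ)⌋₊ with hnd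
  have hk2' : (2 : ℝ) ≤ k := by exact_mod_cast hk2
  have hkpos : (0 : ℝ) < k := by linarith
  have hn2' : (2 : ℝ) ≤ n := by exact_mod_cast hn2
  have hnle : (n : ℝ) ≤ (k : ℝ) ^ (1 + δ) := Nat.floor_le (by positivity)
  have hnlt : (k : ℝ) ^ (1 + δ) < n + 1 := Nat.lt_floor_add_one _
  have hpow : (k : ℝ) ^ (1 + δ) = k * (k : ℝ) ^ δ := by
    rw [Real.rpow_add hkpos, Real.rpow_one]
  have hlogn : Real.log n ≤ (1 + δ) * Real.log k := by
    have := Real.log_le_log (by linarith) hnle
    rwa [Real.log_rpow hkpos] at this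
  have hlogn0 : 0 < Real.log n := Real.log_pos (by linarith)
  have hpi := Chebyshev.pi_ge n
  have hpi2 : (2 * k : ℝ) ≤ Nat.primeCounting n := by
    refine le_trans ?_ hpi
    rw [le_div_iff₀ hlogn0]
    have hl2 := Real.log_two_gt_d9
    have hlk : 0 < Real.log k := Real.log_pos (by linarith)
    have h3 : 8 * (1 + δ) * Real.log k * k ≤ (n : ℝ) + 1 := by
      have := mul_le_mul_of_nonneg_right hk hkpos.le
      nlinarith
    have h4 : 2 * (k : ℝ) * Real.log n ≤ 2 * k * ((1 + δ) * Real.log k) := by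
      apply mul_le_mul_of_nonneg_left hlogn
      positivity
    nlinarith
  have hcount : 2 * k ≤ Nat.primeCounting n := by exact_mod_cast hpi2
  have hcard : k ≤ ((Finset.Ioc k n).filter Nat.Prime).card := by
    have h5 : Nat.primeCounting n ≤ k + ((Finset.Ioc k n).filter Nat.Prime).card := by
      have h6 : Nat.primeCounting n = ((Finset.Icc 1 n).filter Nat.Prime).card := by
        rw [Nat.primeCounting, Nat.primeCounting', Nat.count_eq_card_filter_range]
        congr 1
        ext p
        simp only [Finset.mem_filter, Finset.mem_range, Finset.mem_Icc]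
        constructor
        · rintro ⟨h7, h8⟩
          exact ⟨⟨h8.one_le, by omega⟩, h8⟩
        · rintro ⟨⟨h7, h9⟩, h8⟩
          exact ⟨by omega, h8⟩
      rw [h6]
      calc ((Finset.Icc 1 n).filter Nat.Prime).card
          ≤ (Finset.Icc 1 k ∪ (Finset.Ioc k n).filter Nat.Prime).card := by
            apply Finset.card_le_card
            intro p hp
            simp only [Finset.mem_filter, Finset.mem_Icc, Finset.mem_union, Finset.mem_Ioc] at hp ⊢
            rcases Nat.lt_or_ge k p with h | h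
            · exact Or.inr ⟨⟨h, hp.1.2⟩, hp.2⟩
            · exact Or.inl ⟨hp.1.1, h⟩
        _ ≤ (Finset.Icc 1 k).card + _ := Finset.card_union_le _ _
        _ = _ := by simp
    omega
  obtain ⟨Q, hQ, hQc⟩ := Finset.exists_subset_card_eq hcard
  refine ⟨Q, hQc, fun p hp => ?_⟩
  have h6 := hQ hp
  simp only [Finset.mem_filter, Finset.mem_Ioc] at h6
  refine ⟨h6.2, h6.1.1, ?_⟩
  have : (p : ℝ) ≤ n := by exact_mod_cast h6.1.2
  linarith

end Pool.Agent.Helper77.SF
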